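import Pool.Agent.X182.NA.Fwd

/-!
Products of null-additive sets of reals are null-additive in the plane.
-/

open Set MeasureTheory Filter Topology
open scoped Pointwise ENNReal

namespace Pool.Agent.X182.NA

/-- `D` is a union of cells of the grid of side `1/Q`. -/
def IsGrid (Q : ℕ) (D : Set (ℝ × ℝ)) : Prop :=
  ∀ z z' : ℝ × ℝ, ci Q z.1 = ci Q z'.1 → ci Q z.2 = ci Q z'.2 → z ∈ D → z' ∈ D

/-- the union of the cells of side `1/Q` contained in `O` -/
def inner (O : Set (ℝ × ℝ)) (Q : ℕ) : Set (ℝ × ℝ) :=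
  {z | ∀ z' : ℝ × ℝ, ci Q z.1 = ci Q z'.1 → ci Q z.2 = ci Q z'.2 → z' ∈ O}

lemma inner_subset (O : Set (ℝ × ℝ)) (Q : ℕ) : inner O Q ⊆ O := fun z hz => hz z rfl rfl

lemma isGrid_inner (O : Set (ℝ × ℝ)) (Q : ℕ) : IsGrid Q (inner O Q) := by
  intro z z' h1 h2 hz w hw1 hw2
  exact hz w (h1.trans hw1) (h2.trans hw2)

lemma measurable_ci (Q : ℕ) : Measurable (ci Q) :=
  Int.measurable_floor.comp (measurable_const.mul measurable_id)

lemma measurableSet_inner (O : Set (ℝ × ℝ)) (Q : ℕ) : MeasurableSet (inner O Q) := by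
  let φ : ℝ × ℝ → ℤ × ℤ := fun z => (ci Q z.1, ci Q z.2)
  have hφ : Measurable φ :=
    ((measurable_ci Q).comp measurable_fst).prodMk ((measurable_ci Q).comp measurable_snd)
  have : inner O Q = φ ⁻¹' {p | ∀ z' : ℝ × ℝ, p = φ z' → z' ∈ O} := by
    ext z
    simp only [inner, Set.mem_ofPred_eq, Set.mem_preimage, φ, Prod.mk.injEq]
    constructor
    · rintro h z' ⟨h1, h2⟩; exact h z' h1 h2
    · intro h z' h1 h2; exact h z' ⟨h1, h2⟩
  rw [this]
  exact hφ (MeasurableSet.of_discrete)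

lemma abs_sub_lt_of_ci_eq {Q : ℕ} (hQ : 0 < Q) {x y : ℝ} (h : ci Q x = ci Q y) :
    |x - y| < 1 / Q := by
  have hQ' : (0 : ℝ) < Q := by exact_mod_cast hQ
  have h1 := Int.abs_sub_lt_one_of_floor_eq_floor h
  rw [← mul_sub, abs_mul, abs_of_pos hQ'] at h1
  rw [lt_div_iff₀ hQ']
  linarith

/-- Every point of an open set is eventually in the inner approximations. -/
lemma eventually_mem_inner {O : Set (ℝ × ℝ)} (hO : IsOpen O) {z : ℝ × ℝ} (hz : z ∈ O) :
    ∀ᶠ Q : ℕ in atTop, z ∈ inner O Q := by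
  obtain ⟨ε, hε, hball⟩ := Metric.isOpen_iff.1 hO z hz
  obtain ⟨N, hN⟩ := exists_nat_one_div_lt hε
  filter_upwards [Filter.eventually_ge_atTop (N + 1)] with Q hQ
  intro z' h1 h2
  apply hball
  have hQ0 : 0 < Q := by omega
  have hlt : (1 : ℝ) / Q < ε := by
    refine lt_of_le_of_lt ?_ hN
    apply one_div_le_one_div_of_le (by positivity)
    exact_mod_cast hQ
  rw [Metric.mem_ball, Prod.dist_eq, max_lt_iff, Real.dist_eq, Real.dist_eq]
  exact ⟨(abs_sub_lt_of_ci_eq hQ0 h1.symm).trans hlt, (abs_sub_lt_of_ci_eq hQ0 h2.symm).trans hlt⟩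

lemma exists_scale {O : Set (ℝ × ℝ)} (hO : IsOpen O) (hfin : volume O ≠ ∞) {ε : ℝ≥0∞}
    (hε : 0 < ε) : ∃ R : ℕ, ∀ Q, R ≤ Q → volume (O \ inner O Q) ≤ ε := by
  let D : ℕ → Set (ℝ × ℝ) := fun j => ⋃ Q, ⋃ (_ : j ≤ Q), (O \ inner O Q)
  have hDanti : Antitone D := by
    intro i j hij
    apply Set.iUnion₂_subset
    intro Q hQ
    exact Set.subset_iUnion₂_of_subset Q (hij.trans hQ) (le_refl _)
  have hDm : ∀ j, MeasurableSet (D j) := fun j =>
    MeasurableSet.iUnion (fun Q => MeasurableSet.iUnion (fun _ =>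
      hO.measurableSet.diff (measurableSet_inner O Q)))
  have hDsub : ∀ j, D j ⊆ O := fun j => Set.iUnion₂_subset (fun Q _ => Set.sdiff_subset)
  have hempty : ⋂ j, D j = ∅ := by
    rw [Set.eq_empty_iff_forall_notMem]
    intro z hz
    rw [Set.mem_iInter] at hz
    have hzO : z ∈ O := hDsub 0 (hz 0)
    obtain ⟨R, hR⟩ := Filter.eventually_atTop.1 (eventually_mem_inner hO hzO)
    obtain ⟨Q, hQ, hzQ⟩ := Set.mem_iUnion₂.1 (hz R)
    exact hzQ.2 (hR Q hQ)
  have hlim := tendsto_measure_iInter_atTop (μ := volume) (fun j => (hDm j).nullMeasurableSet)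
    hDanti ⟨0, ne_top_of_le_ne_top hfin (measure_mono (hDsub 0))⟩
  rw [hempty, measure_empty] at hlim
  obtain ⟨R, hR⟩ := Filter.eventually_atTop.1 (hlim.eventually (gt_mem_nhds hε))
  refine ⟨R, fun Q hQ => ?_⟩
  refine le_trans (measure_mono ?_) (hR R le_rfl).le
  exact Set.subset_iUnion₂_of_subset Q hQ (le_refl _)

/-- The shift estimate. -/
lemma volume_add_grid_le {Q : ℕ} (hQ : 0 < Q) {X Y : Set ℝ} (hX : (ci Q '' X).Finite)
    (hY : (ci Q '' Y).Finite) {D : Set (ℝ × ℝ)} (hD : IsGrid Q D) :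
    volume ((X ×ˢ Y : Set (ℝ × ℝ)) + D) ≤
      ((4 * (ci Q '' X).ncard * (ci Q '' Y).ncard : ℕ) : ℝ≥0∞) * volume D := by
  have hQ' : (0 : ℝ) < Q := by exact_mod_cast hQ
  have key : ∀ x z : ℝ, ∃ e ∈ Finset.range 2,
      ci Q (x + z - ((ci Q x : ℝ) + (e : ℝ)) / Q) = ci Q z := by
    intro x z
    have h1 : ((ci Q x : ℤ) : ℝ) ≤ Q * x := Int.floor_le _
    have h2 : (Q : ℝ) * x < (ci Q x : ℤ) + 1 := Int.lt_floor_add_one _
    have h3 : ((ci Q z : ℤ) : ℝ) ≤ Q * z := Int.floor_le _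
    have h4 : (Q : ℝ) * z < (ci Q z : ℤ) + 1 := Int.lt_floor_add_one _
    have e1 : ∀ e : ℝ, (Q : ℝ) * (x + z - ((ci Q x : ℝ) + e) / Q) =
        Q * x + Q * z - (ci Q x) - e := by
      intro e; field_simp; ring
    by_cases h : (Q : ℝ) * x + Q * z - ci Q x < ci Q z + 1
    · refine ⟨0, by simp, ?_⟩
      unfold ci at *
      rw [Nat.cast_zero, e1, Int.floor_eq_iff]
      constructor <;> linarith
    · refine ⟨1, by simp, ?_⟩
      push Not at h
      unfold ci at *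
      rw [Nat.cast_one, e1, Int.floor_eq_iff]
      constructor <;> linarith
  have hsub : ((X ×ˢ Y : Set (ℝ × ℝ)) + D) ⊆
      ⋃ a ∈ hX.toFinset, ⋃ b ∈ hY.toFinset, ⋃ e ∈ Finset.range 2, ⋃ f ∈ Finset.range 2,
        (fun w : ℝ × ℝ => w + (-((((a : ℤ) : ℝ) + ((e : ℕ) : ℝ)) / Q),
          -((((b : ℤ) : ℝ) + ((f : ℕ) : ℝ)) / Q))) ⁻¹' D := by
    rintro _ ⟨p, ⟨hp1, hp2⟩, z, hz, rfl⟩
    obtain ⟨e, he, hee⟩ := key p.1 z.1
    obtain ⟨f, hf, hff⟩ := key p.2 z.2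
    refine Set.mem_iUnion₂.2 ⟨ci Q p.1, by simpa using ⟨p.1, hp1, rfl⟩, ?_⟩
    refine Set.mem_iUnion₂.2 ⟨ci Q p.2, by simpa using ⟨p.2, hp2, rfl⟩, ?_⟩
    refine Set.mem_iUnion₂.2 ⟨e, he, Set.mem_iUnion₂.2 ⟨f, hf, ?_⟩⟩
    refine hD z _ ?_ ?_ hz
    · rw [← hee]; rfl
    · rw [← hff]; rfl
  refine (measure_mono hsub).trans ?_
  refine (measure_biUnion_finset_le _ _).trans ?_
  have hfe : ∀ a : ℤ, ∀ b : ℤ, volume (⋃ e ∈ Finset.range 2, ⋃ f ∈ Finset.range 2,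
        (fun w : ℝ × ℝ => w + (-((((a : ℤ) : ℝ) + ((e : ℕ) : ℝ)) / Q),
          -((((b : ℤ) : ℝ) + ((f : ℕ) : ℝ)) / Q))) ⁻¹' D) ≤ 4 * volume D := by
    intro a b
    refine (measure_biUnion_finset_le _ _).trans ?_
    have : ∀ e ∈ Finset.range 2, volume (⋃ f ∈ Finset.range 2,
        (fun w : ℝ × ℝ => w + (-((((a : ℤ) : ℝ) + ((e : ℕ) : ℝ)) / Q),
          -((((b : ℤ) : ℝ) + ((f : ℕ) : ℝ)) / Q))) ⁻¹' D) ≤ 2 * volume D := by
      intro e _
      refine (measure_biUnion_finset_le _ _).trans ?_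
      have h2 : ∀ f ∈ Finset.range 2, volume ((fun w : ℝ × ℝ => w +
          (-((((a : ℤ) : ℝ) + ((e : ℕ) : ℝ)) / Q),
          -((((b : ℤ) : ℝ) + ((f : ℕ) : ℝ)) / Q))) ⁻¹' D) ≤ volume D := by
        intro f _
        rw [measure_preimage_add_right]
      refine (Finset.sum_le_sum h2).trans ?_
      rw [Finset.sum_const, Finset.card_range, nsmul_eq_mul]
      norm_num
    refine (Finset.sum_le_sum this).trans ?_
    rw [Finset.sum_const, Finset.card_range, nsmul_eq_mul, ← mul_assoc]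
    norm_num
  have hb : ∀ a ∈ hX.toFinset, volume (⋃ b ∈ hY.toFinset, ⋃ e ∈ Finset.range 2,
      ⋃ f ∈ Finset.range 2, (fun w : ℝ × ℝ => w + (-((((a : ℤ) : ℝ) + ((e : ℕ) : ℝ)) / Q),
          -((((b : ℤ) : ℝ) + ((f : ℕ) : ℝ)) / Q))) ⁻¹' D) ≤
        ((ci Q '' Y).ncard : ℝ≥0∞) * (4 * volume D) := by
    intro a _
    refine (measure_biUnion_finset_le _ _).trans ?_
    refine (Finset.sum_le_sum (fun b _ => hfe a b)).trans ?_
    rw [Finset.sum_const, nsmul_eq_mul, Set.ncard_eq_toFinset_card _ hY]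
  refine (Finset.sum_le_sum hb).trans ?_
  rw [Finset.sum_const, nsmul_eq_mul, ← Set.ncard_eq_toFinset_card _ hX]
  push_cast
  apply le_of_eq
  ring

lemma isGrid_mono {Q M : ℕ} (hM : 0 < M) {D : Set (ℝ × ℝ)} (hD : IsGrid Q D) :
    IsGrid (Q * M) D := by
  have key : ∀ x y : ℝ, ci (Q * M) x = ci (Q * M) y → ci Q x = ci Q y := by
    intro x y h
    have hM' : (0 : ℝ) < M := by exact_mod_cast hM
    have hdiv : ∀ w : ℝ, ci (Q * M) w / (M : ℤ) = ci Q w := by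
      intro w
      have hMz : (0 : ℤ) < M := by exact_mod_cast hM
      have h1 : ((ci Q w : ℤ) : ℝ) ≤ (Q : ℝ) * w := Int.floor_le _
      have h2 : (Q : ℝ) * w < (ci Q w : ℤ) + 1 := Int.lt_floor_add_one _
      have h3 : ci Q w * M ≤ ci (Q * M) w := by
        apply Int.le_floor.2
        push_cast
        nlinarith
      have h4 : ci (Q * M) w < (ci Q w + 1) * M := by
        apply Int.floor_lt.2
        push_cast
        nlinarith
      apply le_antisymm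
      · have : ci (Q * M) w / (M : ℤ) < ci Q w + 1 := Int.ediv_lt_of_lt_mul hMz h4
        linarith
      · exact (Int.le_ediv_iff_mul_le hMz).2 h3
    rw [← hdiv x, ← hdiv y, h]
  intro z z' h1 h2 hz
  exact hD z z' (key _ _ h1) (key _ _ h2) hz

theorem product_nullAdditive (X Y : Set ℝ) (hX : NullAdditive X) (hY : NullAdditive Y) :
    NullAdditive (X ×ˢ Y : Set (ℝ × ℝ)) := by
  classical
  intro N hN
  -- the combinatorial parameters
  have hgood : ∀ n : ℕ, ∃ t M₀ : ℕ, 0 < M₀ ∧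
    ∀ (G : Type) [AddCommGroup G] [Fintype G] [DecidableEq G], M₀ ≤ Fintype.card G →
      ∃ B : Finset G, B.card * 2 ^ (n + 1) ≤ Fintype.card G ∧
        ∀ U : Finset G, U.card = t →
          (Finset.univ.filter (fun a => ∀ u ∈ U, a - u ∉ B)).card * 2 ^ (n + 1) ≤
            Fintype.card G := fun n => exists_good_set (2 ^ (n + 1)) (by
      rw [pow_succ]; have : 0 < 2 ^ n := by positivity
      omega)
  choose t₀ M₀ hM₀ hg using hgood
  let t : ℕ → ℕ := fun n => max 1 (t₀ n)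
  have ht : ∀ n, 1 ≤ t n := fun n => le_max_left _ _
  let P : ℕ → ℕ := fun n => ∏ l ∈ Finset.range n, t l
  have hP : ∀ n, 1 ≤ P n := fun n =>
    Nat.succ_le_of_lt (Finset.prod_pos (fun l _ => Nat.lt_of_lt_of_le Nat.zero_lt_one (ht l)))
  have hPmono : ∀ n, P n ≤ P (n + 1) := fun n => by
    show P n ≤ ∏ l ∈ Finset.range (n + 1), t l
    rw [Finset.prod_range_succ]
    exact Nat.le_mul_of_pos_right _ (ht n)
  -- tolerances
  let ε : ℕ → ℝ≥0∞ := fun n => 2⁻¹ ^ n / ((P (n + 1) : ℝ≥0∞) ^ 2)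
  have hPne : ∀ n, ((P n : ℝ≥0∞) ^ 2) ≠ 0 := fun n => by
    apply pow_ne_zero
    exact_mod_cast (Nat.one_le_iff_ne_zero.1 (hP n))
  have hPtop : ∀ n, ((P n : ℝ≥0∞) ^ 2) ≠ ∞ := fun n => ENNReal.pow_ne_top (ENNReal.natCast_ne_top _)
  have hε : ∀ n, 0 < ε n := fun n => by
    apply ENNReal.div_pos _ (hPtop _)
    apply pow_ne_zero
    simp
  have hεtop : ∀ n, ε n ≠ ∞ := fun n => by
    apply ENNReal.div_ne_top _ (hPne _)
    exact ENNReal.pow_ne_top (by simp)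
  -- open covers of `N`
  have hO : ∀ p : ℕ, ∃ O : Set (ℝ × ℝ), N ⊆ O ∧ IsOpen O ∧ volume O ≤ ε p := by
    intro p
    obtain ⟨O, hNO, hOo, hOv⟩ := Set.exists_isOpen_le_add N volume (hε p).ne'
    exact ⟨O, hNO, hOo, by rwa [hN, zero_add] at hOv⟩
  choose O hNO hOo hOv using hO
  -- thresholds
  have hR : ∀ p n : ℕ, ∃ R : ℕ, ∀ Q, R ≤ Q → volume (O p \ inner (O p) Q) ≤ ε n := fun p n =>
    exists_scale (hOo p) (ne_top_of_le_ne_top (hεtop p) (hOv p)) (hε n)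
  choose R hRR using hR
  let Mm : ℕ → ℕ := fun n => (M₀ n + 1) + ∑ p ∈ Finset.range (n + 2), R p (n + 1)
  have hMtwo : ∀ n, 2 ≤ Mm n := fun n => by
    have := hM₀ n
    show 2 ≤ (M₀ n + 1) + ∑ p ∈ Finset.range (n + 2), R p (n + 1)
    omega
  have hMpos : ∀ n, 0 < Mm n := fun n => by have := hMtwo n; omega
  have hQbig : ∀ n, n ≤ Qs Mm n := by
    intro n
    have : 2 ^ n ≤ Qs Mm n := by
      induction n with
      | zero => simp [Qs]
      | succ n ih =>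
        rw [Qs_succ, pow_succ]
        exact Nat.mul_le_mul ih (hMtwo n)
    exact (Nat.lt_two_pow_self.le).trans this
  have hne : ∀ n, NeZero (Mm n) := fun n => ⟨(hMpos n).ne'⟩
  have hB : ∀ n, ∃ B : Finset (ZMod (Mm n)), B.card * 2 ^ (n + 1) ≤ Mm n ∧
      ∀ U : Finset (ZMod (Mm n)), U.card = t n →
      ({a : ZMod (Mm n) | ∀ u ∈ U, a - u ∉ B}.ncard) * 2 ^ (n + 1) ≤ Mm n := by
    intro n
    haveI := hne n
    obtain ⟨B, hB1, hB2⟩ := hg n (ZMod (Mm n)) (by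
      rw [ZMod.card]
      show M₀ n ≤ (M₀ n + 1) + ∑ p ∈ Finset.range (n + 2), R p (n + 1)
      omega)
    rw [ZMod.card] at hB1
    refine ⟨B, hB1, ?_⟩
    intro U hU
    obtain ⟨U', hU's, hU'c⟩ := Finset.exists_subset_card_eq
      (show t₀ n ≤ U.card by rw [hU]; exact le_max_right _ _)
    have h := hB2 U' hU'c
    rw [ZMod.card] at h
    refine le_trans (Nat.mul_le_mul_right _ ?_) h
    rw [← Set.ncard_coe_finset]
    apply Set.ncard_le_ncard _ (Set.toFinite _)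
    intro a ha
    simp only [Finset.coe_filter, Finset.mem_univ, true_and, Set.mem_ofPred_eq] at ha ⊢
    intro u hu
    exact ha u (hU's hu)
  choose B hB1 hB2 using hB
  obtain ⟨SX, hSXc, hXS, hSX⟩ := captured B t ht hMpos hB1 hB2 X hX
  obtain ⟨SY, hSYc, hYS, hSY⟩ := captured B t ht hMpos hB1 hB2 Y hY
  -- scale facts
  have hQR : ∀ p n : ℕ, p ≤ n → 1 ≤ n → volume (O p \ inner (O p) (Qs Mm n)) ≤ ε n := by
    intro p n hpn hn
    apply hRR p n
    obtain ⟨m, rfl⟩ : ∃ m, n = m + 1 := ⟨n - 1, by omega⟩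
    have h1 : R p (m + 1) ≤ ∑ p ∈ Finset.range (m + 2), R p (m + 1) :=
      Finset.single_le_sum (f := fun p => R p (m + 1)) (fun _ _ => Nat.zero_le _)
        (Finset.mem_range.2 (by omega))
    rw [Qs_succ]
    calc R p (m + 1) ≤ Mm m := h1.trans (Nat.le_add_left _ _)
      _ ≤ Qs Mm m * Mm m := Nat.le_mul_of_pos_left _ (Qs_pos hMpos m)
  -- one pair of pieces
  have hpair : ∀ A ∈ SX, ∀ A' ∈ SY, volume ((A ×ˢ A' : Set (ℝ × ℝ)) + N) = 0 := by
    intro A hA A' hA'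
    obtain ⟨C, n₁, h1⟩ := hSX A hA
    obtain ⟨C', n₂, h2⟩ := hSY A' hA'
    -- the constant
    let K : ℝ≥0∞ := 4 * C * C'
    have hshift : ∀ n, n₁ ≤ n → n₂ ≤ n → ∀ D : Set (ℝ × ℝ), IsGrid (Qs Mm n) D →
        volume ((A ×ˢ A' : Set (ℝ × ℝ)) + D) ≤ K * (P n : ℝ≥0∞) ^ 2 * volume D := by
      intro n hn1 hn2 D hD
      obtain ⟨hf1, hc1⟩ := h1 n hn1
      obtain ⟨hf2, hc2⟩ := h2 n hn2
      refine (volume_add_grid_le (Qs_pos hMpos n) hf1 hf2 hD).trans ?_
      apply mul_le_mul_left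
      have : (4 * (ci (Qs Mm n) '' A).ncard * (ci (Qs Mm n) '' A').ncard : ℕ) ≤
          4 * (C * P n) * (C' * P n) :=
        Nat.mul_le_mul (Nat.mul_le_mul_left _ hc1) hc2
      calc ((4 * (ci (Qs Mm n) '' A).ncard * (ci (Qs Mm n) '' A').ncard : ℕ) : ℝ≥0∞)
          ≤ ((4 * (C * P n) * (C' * P n) : ℕ) : ℝ≥0∞) := by exact_mod_cast this
        _ = K * (P n : ℝ≥0∞) ^ 2 := by push_cast; ring
    have hbound : ∀ p, n₁ ≤ p → n₂ ≤ p → 1 ≤ p →
        volume ((A ×ˢ A' : Set (ℝ × ℝ)) + N) ≤ K * (2⁻¹ ^ p) + K * ∑' j, (2⁻¹ : ℝ≥0∞) ^ (p + j) := by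
      intro p hp1 hp2 hp
      have hcov : (A ×ˢ A' : Set (ℝ × ℝ)) + N ⊆
          ((A ×ˢ A' : Set (ℝ × ℝ)) + inner (O p) (Qs Mm p)) ∪
          ⋃ j : ℕ, ((A ×ˢ A' : Set (ℝ × ℝ)) +
            (inner (O p) (Qs Mm (p + j + 1)) \ inner (O p) (Qs Mm (p + j)))) := by
        rintro _ ⟨a, ha, z, hz, rfl⟩
        have hzO : z ∈ O p := hNO p hz
        have hex : ∃ j, z ∈ inner (O p) (Qs Mm (p + j)) := by
          have hev := eventually_mem_inner (hOo p) hzO
          obtain ⟨Q₀, hQ₀⟩ := Filter.eventually_atTop.1 hev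
          exact ⟨Q₀, hQ₀ _ ((Nat.le_add_left _ _).trans (hQbig _))⟩
        by_cases h0 : z ∈ inner (O p) (Qs Mm p)
        · exact Or.inl ⟨a, ha, z, h0, rfl⟩
        · right
          classical
          have hj := Nat.find_spec hex
          have hj0 : Nat.find hex ≠ 0 := by
            intro h; rw [h] at hj; exact h0 hj
          obtain ⟨i, hi⟩ := Nat.exists_eq_succ_of_ne_zero hj0
          refine Set.mem_iUnion.2 ⟨i, a, ha, z, ⟨?_, ?_⟩, rfl⟩
          · rw [hi] at hj; exact hj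
          · exact Nat.find_min hex (by rw [hi]; exact Nat.lt_succ_self i)
      refine (measure_mono hcov).trans ((measure_union_le _ _).trans (add_le_add ?_ ?_))
      · refine (hshift p hp1 hp2 _ (isGrid_inner _ _)).trans ?_
        rw [mul_assoc]
        apply mul_le_mul_right
        calc (P p : ℝ≥0∞) ^ 2 * volume (inner (O p) (Qs Mm p))
            ≤ (P (p + 1) : ℝ≥0∞) ^ 2 * ε p := by
              apply mul_le_mul'
              · exact pow_le_pow_left₀ zero_le (by exact_mod_cast hPmono p) _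
              · exact (measure_mono (inner_subset _ _)).trans (hOv p)
          _ = 2⁻¹ ^ p := ENNReal.mul_div_cancel (hPne _) (hPtop _)
      · refine (measure_iUnion_le _).trans ?_
        rw [← ENNReal.tsum_mul_left]
        apply ENNReal.tsum_le_tsum
        intro j
        have hg1 : IsGrid (Qs Mm (p + j + 1))
            (inner (O p) (Qs Mm (p + j + 1)) \ inner (O p) (Qs Mm (p + j))) := by
          have ha := isGrid_inner (O p) (Qs Mm (p + j + 1))
          have hb := isGrid_mono (hMpos (p + j)) (isGrid_inner (O p) (Qs Mm (p + j)))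
          rw [← Qs_succ] at hb
          intro z z' e1 e2 hz
          exact ⟨ha z z' e1 e2 hz.1, fun h => hz.2 (hb z' z e1.symm e2.symm h)⟩
        refine (hshift (p + j + 1) (by omega) (by omega) _ hg1).trans ?_
        rw [mul_assoc]
        apply mul_le_mul_right
        calc (P (p + j + 1) : ℝ≥0∞) ^ 2 *
              volume (inner (O p) (Qs Mm (p + j + 1)) \ inner (O p) (Qs Mm (p + j)))
            ≤ (P (p + j + 1) : ℝ≥0∞) ^ 2 * ε (p + j) := by
              apply mul_le_mul_right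
              refine le_trans (measure_mono ?_) (hQR p (p + j) (by omega) (by omega))
              exact Set.sdiff_subset_sdiff_left (inner_subset _ _)
          _ = 2⁻¹ ^ (p + j) := ENNReal.mul_div_cancel (hPne _) (hPtop _)
    -- conclude by letting `p → ∞`
    have hKtop : K ≠ ∞ := by
      show (4 * C * C' : ℝ≥0∞) ≠ ∞
      exact ENNReal.mul_ne_top (ENNReal.mul_ne_top (by simp) (ENNReal.natCast_ne_top _))
        (ENNReal.natCast_ne_top _)
    have hb2 : ∀ᶠ p in atTop, volume ((A ×ˢ A' : Set (ℝ × ℝ)) + N) ≤ K * 3 * 2⁻¹ ^ p := by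
      filter_upwards [Filter.eventually_ge_atTop (n₁ + n₂ + 1)] with p hp
      refine (hbound p (by omega) (by omega) (by omega)).trans (le_of_eq ?_)
      have : ∑' j, (2⁻¹ : ℝ≥0∞) ^ (p + j) = 2⁻¹ ^ p * 2 := by
        simp_rw [pow_add]
        rw [ENNReal.tsum_mul_left, ENNReal.tsum_geometric, ENNReal.one_sub_inv_two, inv_inv]
      rw [this]
      ring
    have hlim : Tendsto (fun p : ℕ => K * 3 * (2⁻¹ : ℝ≥0∞) ^ p) atTop (𝓝 0) := by
      have h0 : Tendsto (fun p : ℕ => (2⁻¹ : ℝ≥0∞) ^ p) atTop (𝓝 0) :=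
        ENNReal.tendsto_pow_atTop_nhds_zero_of_lt_one (by norm_num)
      have := ENNReal.Tendsto.const_mul (a := K * 3) h0
        (Or.inr (ENNReal.mul_ne_top hKtop (by simp)))
      simpa using this
    exact le_antisymm (ge_of_tendsto hlim hb2) zero_le
  have hfinal : (X ×ˢ Y : Set (ℝ × ℝ)) + N ⊆
      ⋃ A ∈ SX, ⋃ A' ∈ SY, ((A ×ˢ A' : Set (ℝ × ℝ)) + N) := by
    rintro _ ⟨a, ⟨ha1, ha2⟩, z, hz, rfl⟩
    obtain ⟨A, hA, haA⟩ := hXS ha1
    obtain ⟨A', hA', haA'⟩ := hYS ha2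
    exact Set.mem_iUnion₂.2 ⟨A, hA, Set.mem_iUnion₂.2 ⟨A', hA', a, ⟨haA, haA'⟩, z, hz, rfl⟩⟩
  refine measure_mono_null hfinal ((measure_biUnion_null_iff hSXc).2 (fun A hA =>
    (measure_biUnion_null_iff hSYc).2 (fun A' hA' => hpair A hA A' hA')))

end Pool.Agent.X182.NA
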