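import Mathlib

/-!
A finite combinatorial lemma (probabilistic method, by counting): in every large finite abelian
group there is a set `B` of density at most `1/q` such that any `t` distinct translates of `B`
cover all but a `1/q` fraction of the group, `t` depending on `q` only.
-/

open Finset

namespace Pool.Agent.X182.NA

section

variable {G : Type} [AddCommGroup G] [Fintype G] [DecidableEq G]

/-- The block `a - U`. -/
def blk (U : Finset G) (a : G) : Finset G := U.image (fun u => a - u)

lemma card_blk (U : Finset G) (a : G) : (blk U a).card = U.card :=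
  Finset.card_image_of_injective _ (fun x y h => by simpa using h)

/-- Points not covered by the translates by `U` of the colour class `j` of `c`. -/
def unc {q : ℕ} (U : Finset G) (j : Fin q) (c : G → Fin q) : Finset G :=
  univ.filter (fun a => ∀ x ∈ blk U a, c x ≠ j)

/-- Weighted number of `D`-sequences of uncovered points with disjoint blocks. -/
def F {q : ℕ} (U : Finset G) (j : Fin q) (c : G → Fin q) : ℕ → Finset G → ℕ
  | 0, _ => 1
  | D + 1, S => ∑ a ∈ (unc U j c).filter (fun a => Disjoint S (blk U a)),
      F U j c D (S ∪ blk U a)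

lemma F_lower {q : ℕ} (U : Finset G) (j : Fin q) (c : G → Fin q) (K : ℕ) :
    ∀ (D : ℕ) (S : Finset G), K + (S.card + D * U.card) * U.card ≤ (unc U j c).card →
      K ^ D ≤ F U j c D S := by
  intro D
  induction D with
  | zero => intro S _; simp [F]
  | succ D ih =>
    intro S h
    have hconf : ((unc U j c).filter (fun a => ¬ Disjoint S (blk U a))).card ≤
        S.card * U.card := by
      calc ((unc U j c).filter (fun a => ¬ Disjoint S (blk U a))).card
          ≤ ((S ×ˢ U).image (fun p : G × G => p.1 + p.2)).card := by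
            apply Finset.card_le_card
            intro a ha
            rw [Finset.mem_filter] at ha
            rw [Finset.not_disjoint_iff] at ha
            obtain ⟨_, x, hxS, hx⟩ := ha
            obtain ⟨u, hu, rfl⟩ := Finset.mem_image.1 hx
            exact Finset.mem_image.2 ⟨(a - u, u), Finset.mem_product.2 ⟨hxS, hu⟩, by simp⟩
        _ ≤ (S ×ˢ U).card := Finset.card_image_le
        _ = S.card * U.card := Finset.card_product _ _
    have hsplit := Finset.card_filter_add_card_filter_not (s := unc U j c)
      (fun a => Disjoint S (blk U a))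
    have hK : K ≤ ((unc U j c).filter (fun a => Disjoint S (blk U a))).card := by
      have : K + S.card * U.card ≤ (unc U j c).card := by
        refine le_trans ?_ h
        have : S.card * U.card ≤ (S.card + (D + 1) * U.card) * U.card :=
          Nat.mul_le_mul_right _ (Nat.le_add_right _ _)
        omega
      omega
    calc K ^ (D + 1) = K * K ^ D := by ring
      _ ≤ ((unc U j c).filter (fun a => Disjoint S (blk U a))).card * K ^ D :=
          Nat.mul_le_mul_right _ hK
      _ = ∑ _a ∈ (unc U j c).filter (fun a => Disjoint S (blk U a)), K ^ D := by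
          rw [Finset.sum_const, smul_eq_mul]
      _ ≤ F U j c (D + 1) S := by
          rw [F]
          apply Finset.sum_le_sum
          intro a _
          apply ih
          refine le_trans ?_ h
          have h1 : (S ∪ blk U a).card ≤ S.card + U.card := by
            refine (Finset.card_union_le _ _).trans ?_
            rw [card_blk]
          have h2 : (S ∪ blk U a).card + D * U.card ≤ S.card + (D + 1) * U.card := by
            calc (S ∪ blk U a).card + D * U.card ≤ S.card + U.card + D * U.card := by omega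
              _ = S.card + (D + 1) * U.card := by ring
          have := Nat.mul_le_mul_right U.card h2
          omega

/-- Colourings avoiding the colour `j` on `S`. -/
def Om {q : ℕ} (j : Fin q) (S : Finset G) : Finset (G → Fin q) :=
  univ.filter (fun c => ∀ x ∈ S, c x ≠ j)

lemma card_Om {q : ℕ} (hq : 2 ≤ q) (j : Fin q) (S : Finset G) :
    ((Om j S).card : ℝ) = (q : ℝ) ^ (Fintype.card G) * (1 - 1 / (q : ℝ)) ^ S.card := by
  have h1 : Om j S = Fintype.piFinset (fun x => if x ∈ S then univ.erase j else univ) := by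
    ext c
    simp only [Om, Finset.mem_filter, Finset.mem_univ, true_and, Fintype.mem_piFinset]
    constructor
    · intro h x
      by_cases hx : x ∈ S
      · simp [hx, h x hx]
      · simp [hx]
    · intro h x hx
      have := h x
      simpa [hx] using this
  rw [h1, Fintype.card_piFinset]
  have h2 : ∀ x : G, ((if x ∈ S then univ.erase j else univ : Finset (Fin q)).card) =
      if x ∈ S then q - 1 else q := by
    intro x
    by_cases hx : x ∈ S
    · simp [hx, Finset.card_erase_of_mem]
    · simp [hx]
  simp only [h2]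
  push_cast
  rw [Finset.prod_ite]
  have h3 : (univ.filter (fun x => x ∈ S) : Finset G) = S := by ext; simp
  have h4 : (univ.filter (fun x => x ∉ S) : Finset G).card = Fintype.card G - S.card := by
    have : (univ.filter (fun x => x ∉ S) : Finset G) = Sᶜ := by ext; simp
    rw [this, Finset.card_compl]
  rw [Finset.prod_const, Finset.prod_const, h3, h4]
  have hq0 : (0 : ℝ) < q := by positivity
  have hle : S.card ≤ Fintype.card G := Finset.card_le_univ S
  rw [Nat.cast_sub (by omega : 1 ≤ q)]
  have : (1 : ℝ) - 1 / q = (q - 1) / q := by field_simp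
  rw [this, div_pow]
  have h5 : (q : ℝ) ^ Fintype.card G = (q : ℝ) ^ S.card * (q : ℝ) ^ (Fintype.card G - S.card) := by
    rw [← pow_add]; congr 1; omega
  rw [h5]
  field_simp
  push_cast
  ring

lemma F_upper {q : ℕ} (hq : 2 ≤ q) (U : Finset G) (j : Fin q) :
    ∀ (D : ℕ) (S : Finset G), (∑ c ∈ Om j S, (F U j c D S : ℝ)) ≤
      (Fintype.card G : ℝ) ^ D * (q : ℝ) ^ (Fintype.card G) *
        (1 - 1 / (q : ℝ)) ^ (S.card + U.card * D) := by
  have hq0 : (0 : ℝ) < q := by positivity
  have hρ : (0 : ℝ) ≤ 1 - 1 / (q : ℝ) := by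
    have : 1 / (q : ℝ) ≤ 1 := by
      rw [div_le_one hq0]; exact_mod_cast (by omega : 1 ≤ q)
    linarith
  intro D
  induction D with
  | zero =>
    intro S
    simp only [F, Nat.cast_one, Finset.sum_const, nsmul_eq_mul, mul_one, pow_zero, one_mul,
      Nat.mul_zero, Nat.add_zero]
    rw [card_Om hq]
  | succ D ih =>
    intro S
    have h1 : ∀ c ∈ Om j S, (F U j c (D + 1) S : ℝ) =
        ∑ a : G, if (a ∈ unc U j c ∧ Disjoint S (blk U a)) then
          (F U j c D (S ∪ blk U a) : ℝ) else 0 := by
      intro c _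
      rw [F, Nat.cast_sum, ← Finset.sum_filter]
      congr 1
      ext a
      simp
    rw [Finset.sum_congr rfl h1, Finset.sum_comm]
    have h2 : ∀ a : G, (∑ c ∈ Om j S, if (a ∈ unc U j c ∧ Disjoint S (blk U a)) then
          (F U j c D (S ∪ blk U a) : ℝ) else 0) ≤
        (Fintype.card G : ℝ) ^ D * (q : ℝ) ^ (Fintype.card G) *
        (1 - 1 / (q : ℝ)) ^ (S.card + U.card * (D + 1)) := by
      intro a
      by_cases hd : Disjoint S (blk U a)
      · have h3 : (∑ c ∈ Om j S, if (a ∈ unc U j c ∧ Disjoint S (blk U a)) then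
          (F U j c D (S ∪ blk U a) : ℝ) else 0) =
          ∑ c ∈ Om j (S ∪ blk U a), (F U j c D (S ∪ blk U a) : ℝ) := by
          rw [← Finset.sum_filter]
          congr 1
          ext c
          simp only [Om, unc, Finset.mem_filter, Finset.mem_univ, true_and, Finset.mem_union]
          constructor
          · rintro ⟨h, h', _⟩ x (hx | hx)
            · exact h x hx
            · exact h' x hx
          · intro h
            exact ⟨fun x hx => h x (Or.inl hx), fun x hx => h x (Or.inr hx), hd⟩
        rw [h3]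
        refine (ih _).trans (le_of_eq ?_)
        rw [Finset.card_union_of_disjoint hd, card_blk]
        congr 2
        ring
      · have h3 : (∑ c ∈ Om j S, if (a ∈ unc U j c ∧ Disjoint S (blk U a)) then
          (F U j c D (S ∪ blk U a) : ℝ) else 0) = 0 := by
          apply Finset.sum_eq_zero
          intro c _
          simp [hd]
        rw [h3]
        positivity
    calc _ ≤ ∑ _a : G, (Fintype.card G : ℝ) ^ D * (q : ℝ) ^ (Fintype.card G) *
        (1 - 1 / (q : ℝ)) ^ (S.card + U.card * (D + 1)) := Finset.sum_le_sum (fun a _ => h2 a)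
      _ = _ := by
        rw [Finset.sum_const, nsmul_eq_mul, Finset.card_univ]
        ring

end

lemma exists_params (q : ℕ) (hq : 2 ≤ q) : ∃ t M₀ : ℕ, 0 < t ∧ 0 < M₀ ∧
    2 * (q : ℝ) * (1 - 1 / (q : ℝ)) ^ t ≤ 1 / 2 ∧
    ∀ M : ℕ, M₀ ≤ M → (q : ℝ) * (M : ℝ) ^ t < 2 ^ (M / (2 * q * t ^ 2)) := by
  have hq0 : (0 : ℝ) < q := by positivity
  have hq2 : (2 : ℝ) ≤ q := by exact_mod_cast hq
  have hρ0 : (0 : ℝ) ≤ 1 - 1 / (q : ℝ) := by
    have : 1 / (q : ℝ) ≤ 1 := by
      rw [div_le_one hq0]; linarith
    linarith
  have hρ1 : 1 - 1 / (q : ℝ) < 1 := by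
    have : 0 < 1 / (q : ℝ) := by positivity
    linarith
  obtain ⟨t, ht⟩ := exists_pow_lt_of_lt_one (show (0 : ℝ) < 1 / (4 * q) by positivity) hρ1
  have ht0 : 0 < t := by
    rcases Nat.eq_zero_or_pos t with h | h
    · subst h
      exfalso
      rw [pow_zero] at ht
      have : 1 / (4 * (q : ℝ)) ≤ 1 := by
        rw [div_le_one (by positivity)]; linarith
      linarith
    · exact h
  have h1 : 2 * (q : ℝ) * (1 - 1 / (q : ℝ)) ^ t ≤ 1 / 2 := by
    have : 2 * (q : ℝ) * (1 - 1 / (q : ℝ)) ^ t ≤ 2 * (q : ℝ) * (1 / (4 * q)) :=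
      mul_le_mul_of_nonneg_left ht.le (by positivity)
    refine this.trans (le_of_eq ?_)
    field_simp
    norm_num
  set k : ℕ := 2 * q * t ^ 2 with hk
  have hk0 : 0 < k := by positivity
  have hlim := tendsto_pow_const_div_const_pow_of_one_lt t (one_lt_two : (1 : ℝ) < 2)
  have hlim' := hlim.comp (Filter.tendsto_add_atTop_nat 1)
  have hev := (hlim'.eventually (gt_mem_nhds (show (0 : ℝ) < 1 / (2 * q * k ^ t) by positivity)))
  obtain ⟨D₀, hD₀⟩ := Filter.eventually_atTop.1 hev
  refine ⟨t, k * D₀ + 1, ht0, by omega, h1, ?_⟩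
  intro M hM
  have hD : D₀ ≤ M / k := by
    rw [Nat.le_div_iff_mul_le hk0]
    nlinarith
  have h2 := hD₀ _ hD
  simp only [Function.comp] at h2
  have hM1 : (M : ℝ) ≤ k * ((M / k : ℕ) + 1) := by
    have := Nat.lt_mul_div_succ M hk0
    have h3 : M ≤ k * (M / k + 1) := this.le
    exact_mod_cast h3
  rw [div_lt_div_iff₀ (by positivity) (by positivity)] at h2
  have h4 : (q : ℝ) * (M : ℝ) ^ t ≤ q * (k * ((M / k : ℕ) + 1)) ^ t := by
    apply mul_le_mul_of_nonneg_left _ hq0.le
    exact pow_le_pow_left₀ (by positivity) hM1 _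
  refine lt_of_le_of_lt h4 ?_
  rw [mul_pow]
  push_cast at h2
  rw [pow_succ] at h2
  nlinarith [h2]

theorem exists_good_set (q : ℕ) (hq : 2 ≤ q) : ∃ t M₀ : ℕ, 0 < M₀ ∧
    ∀ (G : Type) [AddCommGroup G] [Fintype G] [DecidableEq G], M₀ ≤ Fintype.card G →
      ∃ B : Finset G, B.card * q ≤ Fintype.card G ∧
        ∀ U : Finset G, U.card = t →
          (univ.filter (fun a => ∀ u ∈ U, a - u ∉ B)).card * q ≤ Fintype.card G := by
  obtain ⟨t, M₀, ht0, hM0, hρt, hM₀⟩ := exists_params q hq
  refine ⟨t, M₀, hM0, ?_⟩
  intro G _ _ _ hG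
  set M := Fintype.card G with hM
  have hMpos : 0 < M := by omega
  have hMr : (0 : ℝ) < M := by exact_mod_cast hMpos
  have hq0 : (0 : ℝ) < q := by positivity
  set D := M / (2 * q * t ^ 2) with hDdef
  have hD := hM₀ M hG
  -- bad colourings
  let bad : Finset G → Fin q → Finset (G → Fin q) := fun U j =>
    univ.filter (fun c => M < (unc U j c).card * q)
  have hbad : ∀ (U : Finset G) (j : Fin q), U.card = t →
      ((bad U j).card : ℝ) ≤ (q : ℝ) ^ M * (1 / 2) ^ D := by
    intro U j hU
    have hup := F_upper hq U j D ∅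
    have hlow : ((bad U j).card : ℝ) * ((M : ℝ) / (2 * q)) ^ D ≤
        ∑ c ∈ Om j (∅ : Finset G), (F U j c D ∅ : ℝ) := by
      calc ((bad U j).card : ℝ) * ((M : ℝ) / (2 * q)) ^ D
          = ∑ _c ∈ bad U j, ((M : ℝ) / (2 * q)) ^ D := by
            rw [Finset.sum_const, nsmul_eq_mul]
        _ ≤ ∑ c ∈ bad U j, (F U j c D ∅ : ℝ) := by
            apply Finset.sum_le_sum
            intro c hc
            rw [Finset.mem_filter] at hc
            have hc2 := hc.2
            have hDt : D * (2 * q * t ^ 2) ≤ M := Nat.div_mul_le_self _ _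
            -- K
            have hle : D * t * t ≤ (unc U j c).card := by
              have : 2 * (D * t * t) * q ≤ M := by nlinarith
              nlinarith
            obtain ⟨K, hK⟩ := Nat.exists_eq_add_of_le hle
            have hKM : M ≤ 2 * q * K := by
              have e1 : (unc U j c).card * q = D * t * t * q + K * q := by rw [hK]; ring
              have e2 : 2 * (D * t * t * q) ≤ M := by nlinarith
              nlinarith
            have hF := F_lower U j c K D ∅ (by
              rw [Finset.card_empty, hU, hK]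
              have : (0 + D * t) * t = D * t * t := by ring
              omega)
            have hK' : (M : ℝ) / (2 * q) ≤ K := by
              rw [div_le_iff₀ (by positivity)]
              have : (M : ℝ) ≤ 2 * q * K := by exact_mod_cast hKM
              linarith
            calc ((M : ℝ) / (2 * q)) ^ D ≤ (K : ℝ) ^ D :=
                  pow_le_pow_left₀ (by positivity) hK' _
              _ ≤ _ := by exact_mod_cast hF
        _ ≤ ∑ c ∈ Om j (∅ : Finset G), (F U j c D ∅ : ℝ) := by
            apply Finset.sum_le_sum_of_subset_of_nonneg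
            · intro c _
              simp [Om]
            · intros; positivity
    have h3 := hlow.trans hup
    rw [Finset.card_empty, hU, zero_add] at h3
    have h4 : (0 : ℝ) < ((M : ℝ) / (2 * q)) ^ D := by positivity
    have h5 : (M : ℝ) ^ D * (q : ℝ) ^ M * (1 - 1 / (q : ℝ)) ^ (t * D) =
        (q : ℝ) ^ M * (2 * q * (1 - 1 / (q : ℝ)) ^ t) ^ D * ((M : ℝ) / (2 * q)) ^ D := by
      rw [pow_mul, mul_assoc ((q : ℝ) ^ M), ← mul_pow]
      have : 2 * (q : ℝ) * (1 - 1 / (q : ℝ)) ^ t * ((M : ℝ) / (2 * q)) =
          M * (1 - 1 / (q : ℝ)) ^ t := by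
        field_simp
      rw [this, mul_pow]
      ring
    rw [← hM, h5] at h3
    have h6 := le_of_mul_le_mul_right h3 h4
    refine h6.trans ?_
    apply mul_le_mul_of_nonneg_left _ (by positivity)
    apply pow_le_pow_left₀ _ hρt
    have : (0 : ℝ) ≤ 1 - 1 / (q : ℝ) := by
      have : 1 / (q : ℝ) ≤ 1 := by
        rw [div_le_one hq0]; exact_mod_cast (by omega : 1 ≤ q)
      linarith
    positivity
  -- union bound
  have hex : ∃ c : G → Fin q, ∀ U : Finset G, U.card = t → ∀ j, (unc U j c).card * q ≤ M := by
    by_contra hcon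
    push Not at hcon
    have hcov : (univ : Finset (G → Fin q)) ⊆
        (Finset.powersetCard t univ ×ˢ univ).biUnion (fun p : Finset G × Fin q => bad p.1 p.2) := by
      intro c _
      obtain ⟨U, hU, j, hj⟩ := hcon c
      rw [Finset.mem_biUnion]
      exact ⟨(U, j), by simp [Finset.mem_powersetCard, hU], by simp [bad, hj]⟩
    have h1 : ((univ : Finset (G → Fin q)).card : ℝ) ≤
        ∑ p ∈ (Finset.powersetCard t univ ×ˢ univ : Finset (Finset G × Fin q)),
          ((bad p.1 p.2).card : ℝ) := by
      have := (Finset.card_le_card hcov).trans Finset.card_biUnion_le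
      exact_mod_cast this
    have h2 : ∑ p ∈ (Finset.powersetCard t univ ×ˢ univ : Finset (Finset G × Fin q)),
          ((bad p.1 p.2).card : ℝ) ≤
        ∑ _p ∈ (Finset.powersetCard t univ ×ˢ univ : Finset (Finset G × Fin q)),
          (q : ℝ) ^ M * (1 / 2) ^ D := by
      apply Finset.sum_le_sum
      rintro ⟨U, j⟩ hp
      simp only [Finset.mem_product, Finset.mem_powersetCard, Finset.mem_univ, and_true] at hp
      exact hbad U j hp.2
    rw [Finset.sum_const, Finset.card_product, Finset.card_powersetCard, nsmul_eq_mul,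
      Finset.card_univ, Finset.card_univ, Fintype.card_fin] at h2
    have h3 : ((univ : Finset (G → Fin q)).card : ℝ) = (q : ℝ) ^ M := by
      rw [Finset.card_univ, Fintype.card_fun, Fintype.card_fin]
      push_cast
      rfl
    rw [h3] at h1
    have h4 : ((Nat.choose (Fintype.card G) t * q : ℕ) : ℝ) ≤ (q : ℝ) * (M : ℝ) ^ t := by
      have : Nat.choose (Fintype.card G) t ≤ M ^ t := Nat.choose_le_pow _ _
      have h5 : ((Nat.choose (Fintype.card G) t : ℕ) : ℝ) ≤ (M : ℝ) ^ t := by exact_mod_cast this
      push_cast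
      nlinarith
    have h5 : (q : ℝ) ^ M ≤ (q : ℝ) * (M : ℝ) ^ t * ((q : ℝ) ^ M * (1 / 2) ^ D) :=
      (h1.trans h2).trans (mul_le_mul_of_nonneg_right h4 (by positivity))
    have h6 : (q : ℝ) * (M : ℝ) ^ t * ((q : ℝ) ^ M * (1 / 2) ^ D) < (q : ℝ) ^ M := by
      have e1 : (q : ℝ) * (M : ℝ) ^ t * ((q : ℝ) ^ M * (1 / 2) ^ D) =
          (q : ℝ) ^ M * ((q : ℝ) * (M : ℝ) ^ t * (1 / 2) ^ D) := by ring
      rw [e1]
      have e2 : (q : ℝ) * (M : ℝ) ^ t * (1 / 2) ^ D < 1 := by
        rw [one_div, inv_pow, ← div_eq_mul_inv, div_lt_one (by positivity)]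
        exact hD
      have e3 : (0 : ℝ) < (q : ℝ) ^ M := by positivity
      nlinarith
    linarith
  obtain ⟨c, hc⟩ := hex
  -- smallest colour class
  have hj : ∃ j : Fin q, (univ.filter (fun x => c x = j)).card * q ≤ M := by
    by_contra hcon
    push Not at hcon
    have hsum : ∑ j : Fin q, (univ.filter (fun x => c x = j)).card = M := by
      rw [hM, ← Finset.card_univ]
      exact (Finset.card_eq_sum_card_fiberwise (fun x _ => Finset.mem_univ (c x))).symm
    have hlt : ∑ _j : Fin q, M < ∑ j : Fin q, (univ.filter (fun x => c x = j)).card * q := by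
      apply Finset.sum_lt_sum_of_nonempty
      · exact ⟨⟨0, by omega⟩, Finset.mem_univ _⟩
      · intro j _; exact hcon j
    rw [← Finset.sum_mul, hsum, Finset.sum_const, Finset.card_univ, Fintype.card_fin,
      smul_eq_mul] at hlt
    nlinarith
  obtain ⟨j, hj⟩ := hj
  refine ⟨univ.filter (fun x => c x = j), hj, ?_⟩
  intro U hU
  have h := hc U hU j
  refine le_trans (le_of_eq ?_) h
  congr 2
  ext a
  simp [unc, blk]

end Pool.Agent.X182.NA
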