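import Pool.Agent.X182.NA.Comb

/-!
Null-additive sets of reals are captured by slaloms on the blocks of digits.
-/

open Set MeasureTheory Filter Topology
open scoped Pointwise ENNReal

namespace Pool.Agent.X182.NA

/-- `A` is null-additive: `A + N` is null for every null set `N`. -/
def NullAdditive {G : Type*} [Add G] [MeasureSpace G] (A : Set G) : Prop :=
  ∀ N : Set G, volume N = 0 → volume (A + N) = 0

/-- index of the `1/Q`-cell containing `x` -/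
noncomputable def ci (Q : ℕ) (x : ℝ) : ℤ := ⌊(Q : ℝ) * x⌋

lemma cast_injOn_Ico {M : ℕ} (b : ℤ) {j j' : ℤ} (hj : b ≤ j ∧ j < b + M)
    (hj' : b ≤ j' ∧ j' < b + M) (h : (j : ZMod M) = (j' : ZMod M)) : j = j' := by
  rw [ZMod.intCast_eq_intCast_iff_dvd_sub] at h
  have habs : |j' - j| < (M : ℤ) := by
    rw [abs_lt]; constructor <;> linarith [hj.1, hj.2, hj'.1, hj'.2]
  have := Int.eq_zero_of_abs_lt_dvd h habs
  linarith

lemma card_filter_Ico_le {M : ℕ} (A : Finset (ZMod M)) (s : ℕ) (a : ℤ) :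
    ((Finset.Ico a (a + (M : ℤ) * s)).filter (fun j : ℤ => (j : ZMod M) ∈ A)).card
      ≤ s * A.card := by
  induction s with
  | zero => simp
  | succ s ih =>
    have h1 : (Finset.Ico a (a + (M : ℤ) * (s + 1 : ℕ))).filter (fun j : ℤ => (j : ZMod M) ∈ A) ⊆
        (Finset.Ico a (a + (M : ℤ) * s)).filter (fun j : ℤ => (j : ZMod M) ∈ A) ∪
        (Finset.Ico (a + (M : ℤ) * s) (a + (M : ℤ) * s + M)).filter
          (fun j : ℤ => (j : ZMod M) ∈ A) := by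
      intro j hj
      simp only [Finset.mem_filter, Finset.mem_Ico, Finset.mem_union] at hj ⊢
      obtain ⟨⟨h1, h2⟩, h3⟩ := hj
      push_cast at h2
      by_cases h : j < a + (M : ℤ) * s
      · exact Or.inl ⟨⟨h1, h⟩, h3⟩
      · refine Or.inr ⟨⟨by linarith, ?_⟩, h3⟩
        nlinarith
    have h2 : ((Finset.Ico (a + (M : ℤ) * s) (a + (M : ℤ) * s + M)).filter
          (fun j : ℤ => (j : ZMod M) ∈ A)).card ≤ A.card := by
      apply Finset.card_le_card_of_injOn (fun j : ℤ => (j : ZMod M))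
      · intro j hj
        simp only [Finset.coe_filter, Set.mem_ofPred_eq] at hj
        exact hj.2
      · intro j hj j' hj' h
        simp only [Finset.coe_filter, Set.mem_ofPred_eq, Finset.mem_Ico] at hj hj'
        exact cast_injOn_Ico _ hj.1 hj'.1 h
    calc _ ≤ _ := Finset.card_le_card h1
      _ ≤ _ := Finset.card_union_le _ _
      _ ≤ s * A.card + A.card := by omega
      _ = (s + 1) * A.card := by ring

/-- Measure of the set of points of a unit interval whose cell index has residue in `A`. -/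
lemma volume_residue_le {M s : ℕ} (hM : 0 < M) (hs : 0 < s) (A : Finset (ZMod M)) (k : ℤ) :
    volume {y : ℝ | y ∈ Ico (k : ℝ) (k + 1) ∧ ((ci (s * M) y : ℤ) : ZMod M) ∈ A} ≤
      ENNReal.ofReal ((A.card : ℝ) / M) := by
  have hQ : (0 : ℝ) < ((s * M : ℕ) : ℝ) := by positivity
  set Q : ℕ := s * M with hQdef
  let J := (Finset.Ico (k * Q) (k * Q + (M : ℤ) * s)).filter (fun j : ℤ => (j : ZMod M) ∈ A)
  have hsub : {y : ℝ | y ∈ Ico (k : ℝ) (k + 1) ∧ ((ci Q y : ℤ) : ZMod M) ∈ A} ⊆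
      ⋃ j ∈ J, Ico ((j : ℝ) / Q) ((j + 1) / Q) := by
    rintro y ⟨⟨h1, h2⟩, h3⟩
    have hf1 : ((ci Q y : ℤ) : ℝ) ≤ Q * y := Int.floor_le _
    have hf2 : (Q : ℝ) * y < (ci Q y : ℤ) + 1 := Int.lt_floor_add_one _
    refine Set.mem_iUnion₂.2 ⟨ci Q y, ?_, ?_⟩
    · rw [Finset.mem_filter, Finset.mem_Ico]
      refine ⟨⟨?_, ?_⟩, h3⟩
      · have : ((k * Q : ℤ) : ℝ) ≤ Q * y := by push_cast; nlinarith
        exact Int.le_floor.2 this
      · have : (Q : ℝ) * y < ((k * Q + (M : ℤ) * s : ℤ) : ℝ) := by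
          push_cast
          have e : (M : ℝ) * s = Q := by rw [hQdef]; push_cast; ring
          rw [e]
          nlinarith
        exact Int.floor_lt.2 this
    · constructor
      · rw [div_le_iff₀ hQ]; linarith
      · rw [lt_div_iff₀ hQ]; linarith
  refine (measure_mono hsub).trans ((measure_biUnion_finset_le _ _).trans ?_)
  have hvol : ∀ j ∈ J, volume (Ico ((j : ℝ) / Q) ((j + 1) / Q)) = ENNReal.ofReal (1 / Q) := by
    intro j _
    rw [Real.volume_Ico]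
    congr 1
    field_simp
    ring
  rw [Finset.sum_congr rfl hvol, Finset.sum_const, nsmul_eq_mul, ← ENNReal.ofReal_natCast,
    ← ENNReal.ofReal_mul (by positivity)]
  apply ENNReal.ofReal_le_ofReal
  have hJ : J.card ≤ s * A.card := card_filter_Ico_le A s (k * Q)
  have hJ' : (J.card : ℝ) ≤ s * A.card := by exact_mod_cast hJ
  calc (J.card : ℝ) * (1 / Q) ≤ (s * A.card) * (1 / Q) := by
        apply mul_le_mul_of_nonneg_right hJ' (by positivity)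
    _ = (A.card : ℝ) / M := by
        rw [hQdef]; push_cast
        have : (s : ℝ) ≠ 0 := by positivity
        have : (M : ℝ) ≠ 0 := by positivity
        field_simp

section

variable (Mm : ℕ → ℕ) (B : ∀ n, Finset (ZMod (Mm n)))

/-- the scales -/
def Qs (n : ℕ) : ℕ := ∏ l ∈ Finset.range n, Mm l

lemma Qs_succ (n : ℕ) : Qs Mm (n + 1) = Qs Mm n * Mm n := Finset.prod_range_succ _ _

variable {Mm}

lemma Qs_pos (h : ∀ n, 0 < Mm n) (n : ℕ) : 0 < Qs Mm n := Finset.prod_pos (fun l _ => h l)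

/-- the open sets whose limsup is the test null set -/
def V (n : ℕ) : Set ℝ :=
  ⋃ b ∈ {b : ℤ | (b : ZMod (Mm n)) ∈ B n}, {w : ℝ | (b : ℝ) < (Qs Mm (n + 1) : ℝ) * w ∧
    (Qs Mm (n + 1) : ℝ) * w < b + 2}

lemma isOpen_V (n : ℕ) : IsOpen (V B n) := by
  apply isOpen_biUnion
  intro b _
  exact (isOpen_lt continuous_const (continuous_const.mul continuous_id)).inter
    (isOpen_lt (continuous_const.mul continuous_id) continuous_const)

lemma volume_V_le (hM : ∀ n, 0 < Mm n) (hB : ∀ n, (B n).card * 2 ^ (n + 1) ≤ Mm n)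
    (n : ℕ) (k : ℤ) :
    volume (V B n ∩ Ico (k : ℝ) (k + 1)) ≤ (2⁻¹ : ℝ≥0∞) ^ n := by
  classical
  let A : Finset (ZMod (Mm n)) := B n ∪ (B n).image (fun x => x + 1)
  have hsub : V B n ∩ Ico (k : ℝ) (k + 1) ⊆
      {y : ℝ | y ∈ Ico (k : ℝ) (k + 1) ∧ ((ci (Qs Mm n * Mm n) y : ℤ) : ZMod (Mm n)) ∈ A} := by
    rintro y ⟨hy, hyk⟩
    refine ⟨hyk, ?_⟩
    obtain ⟨b, hb, h1, h2⟩ := Set.mem_iUnion₂.1 hy
    rw [Qs_succ] at h1 h2
    have hfl : ci (Qs Mm n * Mm n) y = b ∨ ci (Qs Mm n * Mm n) y = b + 1 := by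
      have h3 : b ≤ ci (Qs Mm n * Mm n) y := Int.le_floor.2 h1.le
      have h4 : ci (Qs Mm n * Mm n) y < b + 2 :=
        Int.floor_lt.2 (by push_cast at h2 ⊢; linarith)
      omega
    rcases hfl with h | h
    · rw [h]; exact Finset.mem_union_left _ hb
    · rw [h]; exact Finset.mem_union_right _ (Finset.mem_image.2 ⟨_, hb, by push_cast; ring⟩)
  refine (measure_mono hsub).trans ((volume_residue_le (hM n) (Qs_pos hM n) A k).trans ?_)
  have hA : A.card ≤ 2 * (B n).card := by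
    refine (Finset.card_union_le _ _).trans ?_
    have : ((B n).image (fun x => x + 1)).card ≤ (B n).card := Finset.card_image_le
    omega
  have h1 : (A.card : ℝ) / Mm n ≤ (1 / 2) ^ n := by
    have hMn : (0 : ℝ) < Mm n := by exact_mod_cast hM n
    rw [div_le_iff₀ hMn]
    have h2 : ((B n).card : ℝ) * 2 ^ (n + 1) ≤ Mm n := by exact_mod_cast hB n
    have h3 : (A.card : ℝ) ≤ 2 * (B n).card := by exact_mod_cast hA
    have h4 : (0 : ℝ) < (2 : ℝ) ^ n := by positivity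
    rw [one_div, inv_pow, ← div_eq_inv_mul, le_div_iff₀ h4]
    rw [pow_succ] at h2
    nlinarith
  refine (ENNReal.ofReal_le_ofReal h1).trans (le_of_eq ?_)
  rw [ENNReal.ofReal_pow (by norm_num), one_div, ENNReal.ofReal_inv_of_pos (by norm_num)]
  norm_num

/-- the test null set -/
def Hs : Set ℝ := {w | ∃ᶠ n in atTop, w ∈ V B n}

lemma volume_Hs (hM : ∀ n, 0 < Mm n) (hB : ∀ n, (B n).card * 2 ^ (n + 1) ≤ Mm n) :
    volume (Hs B) = 0 := by
  have h1 : Hs B ⊆ ⋃ k : ℤ, {w | ∃ᶠ n in atTop, w ∈ V B n ∩ Ico (k : ℝ) (k + 1)} := by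
    intro w hw
    refine Set.mem_iUnion.2 ⟨⌊w⌋, ?_⟩
    refine hw.mono ?_
    intro n hn
    exact ⟨hn, Int.floor_le w, Int.lt_floor_add_one w⟩
  refine measure_mono_null h1 (measure_iUnion_null ?_)
  intro k
  apply measure_setOfPred_frequently_eq_zero
  refine ne_top_of_le_ne_top ?_ (ENNReal.tsum_le_tsum (fun n => volume_V_le B hM hB n k))
  rw [ENNReal.tsum_geometric]
  simp

/-- the pieces -/
def piece (X T J : Set ℝ) (m : ℕ) (k : ℤ) : Set ℝ :=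
  {x | x ∈ X ∧ x ∈ Ico (k : ℝ) (k + 1) ∧ ∀ y ∈ T ∩ J, ∀ n, m ≤ n → y - x ∉ V B n}

lemma exists_compact (X : Set ℝ) (hX : NullAdditive X) (hM : ∀ n, 0 < Mm n)
    (hB : ∀ n, (B n).card * 2 ^ (n + 1) ≤ Mm n) :
    ∃ T : Set ℝ, IsCompact T ∧ T.Nonempty ∧ T ⊆ Ico (0 : ℝ) 1 ∧
      (∀ J ∈ TopologicalSpace.countableBasis ℝ, (T ∩ J).Nonempty → 0 < volume (T ∩ J)) ∧
      ∀ x ∈ X, ∀ y ∈ T, y - x ∉ Hs B := by
  have h0 : volume (X + Hs B) = 0 := hX _ (volume_Hs B hM hB)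
  set Gs := toMeasurable volume (X + Hs B) with hGs
  have hG0 : volume Gs = 0 := by rw [hGs, measure_toMeasurable, h0]
  have hmeas : MeasurableSet (Ico (0 : ℝ) 1 \ Gs) :=
    measurableSet_Ico.diff (measurableSet_toMeasurable _ _)
  have hpos : (0 : ℝ≥0∞) < volume (Ico (0 : ℝ) 1 \ Gs) := by
    rw [measure_sdiff_null hG0, Real.volume_Ico]
    simp
  obtain ⟨T₀, hT₀s, hT₀c, hT₀⟩ := hmeas.exists_lt_isCompact hpos
  let bad : Set (Set ℝ) := {J | J ∈ TopologicalSpace.countableBasis ℝ ∧ volume (T₀ ∩ J) = 0}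
  have hbadc : bad.Countable := (TopologicalSpace.countable_countableBasis ℝ).mono (fun J h => h.1)
  have hbado : IsOpen (⋃₀ bad) :=
    isOpen_sUnion (fun J hJ => TopologicalSpace.isOpen_of_mem_countableBasis hJ.1)
  have hnull : volume (T₀ ∩ ⋃₀ bad) = 0 := by
    rw [Set.sUnion_eq_biUnion, Set.inter_iUnion₂, measure_biUnion_null_iff hbadc]
    intro J hJ
    exact hJ.2
  refine ⟨T₀ \ ⋃₀ bad, hT₀c.diff hbado, ?_, ?_, ?_, ?_⟩
  · have : 0 < volume (T₀ \ ⋃₀ bad) := by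
      have h1 := measure_le_inter_add_sdiff volume T₀ (⋃₀ bad)
      rw [hnull, zero_add] at h1
      exact hT₀.trans_le h1
    exact nonempty_of_measure_ne_zero this.ne'
  · intro y hy
    exact (hT₀s hy.1).1
  · rintro J hJ ⟨y, ⟨hyT, hyb⟩, hyJ⟩
    have hne : volume (T₀ ∩ J) ≠ 0 := by
      intro h
      exact hyb ⟨J, ⟨hJ, h⟩, hyJ⟩
    have h1 : volume (T₀ ∩ J) ≤ volume (T₀ ∩ ⋃₀ bad) + volume ((T₀ \ ⋃₀ bad) ∩ J) := by
      refine (measure_mono ?_).trans (measure_union_le _ _)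
      rintro z ⟨hz1, hz2⟩
      by_cases hz : z ∈ ⋃₀ bad
      · exact Or.inl ⟨hz1, hz⟩
      · exact Or.inr ⟨⟨hz1, hz⟩, hz2⟩
    rw [hnull, zero_add] at h1
    exact (pos_iff_ne_zero.2 hne).trans_le h1
  · intro x hx y hy hH
    have : y ∈ X + Hs B := ⟨x, hx, y - x, hH, by ring⟩
    exact (hT₀s hy.1).2 (subset_toMeasurable _ _ this)

lemma exists_piece (X T : Set ℝ) (hT : IsCompact T) (hTne : T.Nonempty)
    (hTH : ∀ x ∈ X, ∀ y ∈ T, y - x ∉ Hs B) (x : ℝ) (hx : x ∈ X) :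
    ∃ m : ℕ, ∃ J ∈ TopologicalSpace.countableBasis ℝ, (T ∩ J).Nonempty ∧
      ∀ y ∈ T ∩ J, ∀ n, m ≤ n → y - x ∉ V B n := by
  haveI : CompactSpace T := isCompact_iff_compactSpace.1 hT
  haveI : Nonempty T := hTne.to_subtype
  let C : ℕ → Set T := fun m => {y | ∀ n, m ≤ n → (y : ℝ) - x ∉ V B n}
  have hCc : ∀ m, IsClosed (C m) := by
    intro m
    have : C m = ⋂ n, ⋂ (_ : m ≤ n), {y : T | (y : ℝ) - x ∉ V B n} := by
      ext y; simp [C]
    rw [this]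
    refine isClosed_iInter (fun n => isClosed_iInter (fun _ => ?_))
    have : {y : T | (y : ℝ) - x ∉ V B n} = (fun y : T => (y : ℝ) - x) ⁻¹' (V B n)ᶜ := rfl
    rw [this]
    exact (isOpen_V B n).isClosed_compl.preimage (continuous_subtype_val.sub continuous_const)
  have hCu : ⋃ m, C m = Set.univ := by
    rw [Set.eq_univ_iff_forall]
    intro y
    have h := hTH x hx y y.2
    simp only [Hs, Set.mem_ofPred_eq, Filter.not_frequently] at h
    obtain ⟨m, hm⟩ := Filter.eventually_atTop.1 h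
    exact Set.mem_iUnion.2 ⟨m, fun n hn => hm n hn⟩
  obtain ⟨m, y, hy⟩ := nonempty_interior_of_iUnion_of_closed hCc hCu
  have hopen : IsOpen (interior (C m)) := isOpen_interior
  obtain ⟨O, hO, hOe⟩ := isOpen_induced_iff.1 hopen
  have hyO : (y : ℝ) ∈ O := by
    have : y ∈ Subtype.val ⁻¹' O := by rw [hOe]; exact hy
    exact this
  obtain ⟨J, hJ, hyJ, hJO⟩ :=
    (TopologicalSpace.isBasis_countableBasis ℝ).exists_subset_of_mem_open hyO hO
  refine ⟨m, J, hJ, ⟨y, y.2, hyJ⟩, ?_⟩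
  rintro z ⟨hzT, hzJ⟩ n hn
  have : (⟨z, hzT⟩ : T) ∈ interior (C m) := by
    rw [← hOe]; exact hJO hzJ
  exact interior_subset this n hn

/-- residues met by the piece in block `n` -/
lemma piece_residues (t : ℕ → ℕ) (hM : ∀ n, 0 < Mm n)
    (hU : ∀ n, ∀ U : Finset (ZMod (Mm n)), U.card = t n →
      ({a : ZMod (Mm n) | ∀ u ∈ U, a - u ∉ B n}.ncard) * 2 ^ (n + 1) ≤ Mm n)
    (X T J : Set ℝ) (hT1 : T ⊆ Ico (0 : ℝ) 1) (hpos : 0 < volume (T ∩ J)) (m : ℕ) (k : ℤ) :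
    ∃ n₀ : ℕ, ∀ n, n₀ ≤ n →
      ((fun x : ℝ => ((ci (Qs Mm (n + 1)) x : ℤ) : ZMod (Mm n))) '' (piece B X T J m k)).ncard
        ≤ t n := by
  classical
  have hlim : Tendsto (fun n : ℕ => (2⁻¹ : ℝ≥0∞) ^ (n + 1)) atTop (𝓝 0) :=
    (ENNReal.tendsto_pow_atTop_nhds_zero_of_lt_one (by norm_num)).comp (tendsto_add_atTop_nat 1)
  obtain ⟨n₁, hn₁⟩ := Filter.eventually_atTop.1 (hlim.eventually (gt_mem_nhds hpos))
  refine ⟨max m n₁, ?_⟩
  intro n hn
  haveI : NeZero (Mm n) := ⟨(hM n).ne'⟩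
  by_contra hcon
  push Not at hcon
  set R := (fun x : ℝ => ((ci (Qs Mm (n + 1)) x : ℤ) : ZMod (Mm n))) '' (piece B X T J m k)
    with hR
  have hRfin : R.Finite := Set.toFinite _
  rw [Set.ncard_eq_toFinset_card R hRfin] at hcon
  obtain ⟨U, hUs, hUc⟩ := Finset.exists_subset_card_eq hcon.le
  have hUnc := hU n U hUc
  set Un : Set (ZMod (Mm n)) := {a : ZMod (Mm n) | ∀ u ∈ U, a - u ∉ B n} with hUn
  have hUnfin : Un.Finite := Set.toFinite _
  let A : Finset (ZMod (Mm n)) := hUnfin.toFinset.image (fun a => a + 1)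
  have hsub : T ∩ J ⊆ {y : ℝ | y ∈ Ico ((0 : ℤ) : ℝ) (((0 : ℤ) : ℝ) + 1) ∧
      ((ci (Qs Mm n * Mm n) y : ℤ) : ZMod (Mm n)) ∈ A} := by
    intro y hy
    refine ⟨by simpa using hT1 hy.1, ?_⟩
    refine Finset.mem_image.2 ⟨((ci (Qs Mm n * Mm n) y : ℤ) : ZMod (Mm n)) - 1, ?_, by ring⟩
    rw [Set.Finite.mem_toFinset]
    intro u hu hmem
    have huR : u ∈ R := by
      have := hUs hu
      rwa [Set.Finite.mem_toFinset] at this
    obtain ⟨x, ⟨_, _, hxV⟩, hxu⟩ := huR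
    refine hxV y hy n (le_trans (le_max_left _ _) hn) ?_
    refine Set.mem_iUnion₂.2 ⟨ci (Qs Mm n * Mm n) y - ci (Qs Mm (n + 1)) x - 1, ?_, ?_, ?_⟩
    · show ((ci (Qs Mm n * Mm n) y - ci (Qs Mm (n + 1)) x - 1 : ℤ) : ZMod (Mm n)) ∈ B n
      have hxu' : ((ci (Qs Mm (n + 1)) x : ℤ) : ZMod (Mm n)) = u := hxu
      push_cast
      rw [hxu']
      have : ((ci (Qs Mm n * Mm n) y : ℤ) : ZMod (Mm n)) - u - 1 =
        ((ci (Qs Mm n * Mm n) y : ℤ) : ZMod (Mm n)) - 1 - u := by ring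
      rw [this]
      exact hmem
    · rw [← Qs_succ]
      have h1 : ((ci (Qs Mm (n + 1)) y : ℤ) : ℝ) ≤ (Qs Mm (n + 1) : ℝ) * y := Int.floor_le _
      have h2 : (Qs Mm (n + 1) : ℝ) * x < (ci (Qs Mm (n + 1)) x : ℤ) + 1 :=
        Int.lt_floor_add_one _
      push_cast
      rw [mul_sub]
      linarith
    · rw [← Qs_succ]
      have h1 : (Qs Mm (n + 1) : ℝ) * y < (ci (Qs Mm (n + 1)) y : ℤ) + 1 :=
        Int.lt_floor_add_one _
      have h2 : ((ci (Qs Mm (n + 1)) x : ℤ) : ℝ) ≤ (Qs Mm (n + 1) : ℝ) * x := Int.floor_le _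
      push_cast
      rw [mul_sub]
      linarith
  have hle := (measure_mono hsub).trans (volume_residue_le (hM n) (Qs_pos hM n) A 0)
  have hAc : A.card ≤ Un.ncard := by
    rw [Set.ncard_eq_toFinset_card Un hUnfin]
    exact Finset.card_image_le
  have h1 : (A.card : ℝ) / Mm n ≤ (1 / 2) ^ (n + 1) := by
    have hMn : (0 : ℝ) < Mm n := by exact_mod_cast hM n
    rw [div_le_iff₀ hMn]
    have h2 : (Un.ncard : ℝ) * 2 ^ (n + 1) ≤ Mm n := by exact_mod_cast hUnc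
    have h3 : (A.card : ℝ) ≤ Un.ncard := by exact_mod_cast hAc
    have h4 : (0 : ℝ) < (2 : ℝ) ^ (n + 1) := by positivity
    rw [one_div, inv_pow, ← div_eq_inv_mul, le_div_iff₀ h4]
    nlinarith
  have h5 : ENNReal.ofReal ((A.card : ℝ) / Mm n) ≤ (2⁻¹ : ℝ≥0∞) ^ (n + 1) := by
    refine (ENNReal.ofReal_le_ofReal h1).trans (le_of_eq ?_)
    rw [ENNReal.ofReal_pow (by norm_num), one_div, ENNReal.ofReal_inv_of_pos (by norm_num)]
    norm_num
  have h6 := hn₁ n (le_trans (le_max_right _ _) hn)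
  exact absurd (hle.trans h5) (not_le.2 h6)

lemma ci_succ_div (hM : ∀ n, 0 < Mm n) (n : ℕ) (x : ℝ) :
    ci (Qs Mm (n + 1)) x / (Mm n : ℤ) = ci (Qs Mm n) x := by
  have hMn : (0 : ℝ) < Mm n := by exact_mod_cast hM n
  have hMz : (0 : ℤ) < Mm n := by exact_mod_cast hM n
  have h1 : ((ci (Qs Mm n) x : ℤ) : ℝ) ≤ (Qs Mm n : ℝ) * x := Int.floor_le _
  have h2 : (Qs Mm n : ℝ) * x < (ci (Qs Mm n) x : ℤ) + 1 := Int.lt_floor_add_one _
  have e : ((Qs Mm (n + 1) : ℕ) : ℝ) = Qs Mm n * Mm n := by rw [Qs_succ]; push_cast; ring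
  have h3 : ci (Qs Mm n) x * Mm n ≤ ci (Qs Mm (n + 1)) x := by
    apply Int.le_floor.2
    rw [e]; push_cast
    nlinarith
  have h4 : ci (Qs Mm (n + 1)) x < (ci (Qs Mm n) x + 1) * Mm n := by
    apply Int.floor_lt.2
    rw [e]; push_cast
    nlinarith
  apply le_antisymm
  · have : ci (Qs Mm (n + 1)) x / (Mm n : ℤ) < ci (Qs Mm n) x + 1 :=
      Int.ediv_lt_of_lt_mul hMz h4
    linarith
  · exact (Int.le_ediv_iff_mul_le hMz).2 h3

lemma cells_finite (Q : ℕ) (S : Set ℝ) (k : ℤ) (hS : S ⊆ Ico (k : ℝ) (k + 1)) :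
    (ci Q '' S).Finite := by
  apply (Set.finite_Icc (k * Q : ℤ) ((k + 1) * Q)).subset
  rintro _ ⟨x, hx, rfl⟩
  have h := hS hx
  have hQ : (0 : ℝ) ≤ Q := by positivity
  constructor
  · apply Int.le_floor.2
    push_cast
    nlinarith [h.1]
  · have : ((ci Q x : ℤ) : ℝ) ≤ Q * x := Int.floor_le _
    have h2 : ((ci Q x : ℤ) : ℝ) ≤ (((k + 1) * Q : ℤ) : ℝ) := by
      push_cast
      nlinarith [h.2]
    exact_mod_cast h2

lemma ncard_cells_succ (hM : ∀ n, 0 < Mm n) (n : ℕ) (S : Set ℝ) (k : ℤ)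
    (hS : S ⊆ Ico (k : ℝ) (k + 1)) :
    (ci (Qs Mm (n + 1)) '' S).ncard ≤ (ci (Qs Mm n) '' S).ncard *
      ((fun x : ℝ => ((ci (Qs Mm (n + 1)) x : ℤ) : ZMod (Mm n))) '' S).ncard := by
  haveI : NeZero (Mm n) := ⟨(hM n).ne'⟩
  rw [← Set.ncard_prod]
  refine Set.ncard_le_ncard_of_injOn (fun z : ℤ => (z / (Mm n : ℤ), (z : ZMod (Mm n)))) ?_ ?_
    ((cells_finite _ _ k hS).prod (Set.toFinite _))
  · rintro _ ⟨x, hx, rfl⟩
    exact ⟨⟨x, hx, (ci_succ_div hM n x).symm⟩, ⟨x, hx, rfl⟩⟩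
  · intro z _ z' _ h
    simp only [Prod.mk.injEq] at h
    obtain ⟨h1, h2⟩ := h
    rw [ZMod.intCast_eq_intCast_iff'] at h2
    rw [← Int.mul_ediv_add_emod z (Mm n), ← Int.mul_ediv_add_emod z' (Mm n), h1, h2]

/-- **Slalom capturing.** -/
theorem captured (t : ℕ → ℕ) (ht : ∀ n, 1 ≤ t n) (hM : ∀ n, 0 < Mm n)
    (hB : ∀ n, (B n).card * 2 ^ (n + 1) ≤ Mm n)
    (hU : ∀ n, ∀ U : Finset (ZMod (Mm n)), U.card = t n →
      ({a : ZMod (Mm n) | ∀ u ∈ U, a - u ∉ B n}.ncard) * 2 ^ (n + 1) ≤ Mm n)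
    (X : Set ℝ) (hX : NullAdditive X) :
    ∃ S : Set (Set ℝ), S.Countable ∧ X ⊆ ⋃₀ S ∧ ∀ Y ∈ S, ∃ C n₀ : ℕ, ∀ n, n₀ ≤ n →
      (ci (Qs Mm n) '' Y).Finite ∧
      (ci (Qs Mm n) '' Y).ncard ≤ C * ∏ l ∈ Finset.range n, t l := by
  obtain ⟨T, hTc, hTne, hT1, hTpos, hTH⟩ := exists_compact B X hX hM hB
  let ι := ℕ × {J : Set ℝ // J ∈ TopologicalSpace.countableBasis ℝ ∧ (T ∩ J).Nonempty} × ℤ
  haveI : Countable {J : Set ℝ // J ∈ TopologicalSpace.countableBasis ℝ ∧ (T ∩ J).Nonempty} :=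
    ((TopologicalSpace.countable_countableBasis ℝ).mono (fun J h => h.1)).to_subtype
  let P : ι → Set ℝ := fun i => piece B X T i.2.1.1 i.1 i.2.2
  refine ⟨Set.range P, Set.countable_range P, ?_, ?_⟩
  · intro x hx
    obtain ⟨m, J, hJ, hJne, hxJ⟩ := exists_piece B X T hTc hTne hTH x hx
    refine ⟨P (m, ⟨J, hJ, hJne⟩, ⌊x⌋), ⟨_, rfl⟩, hx, ⟨Int.floor_le x, Int.lt_floor_add_one x⟩, hxJ⟩
  · rintro _ ⟨⟨m, ⟨J, hJ, hJne⟩, k⟩, rfl⟩
    obtain ⟨n₀, hn₀⟩ := piece_residues B t hM hU X T J hT1 (hTpos J hJ hJne) m k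
    have hS : piece B X T J m k ⊆ Ico (k : ℝ) (k + 1) := fun x hx => hx.2.1
    refine ⟨(ci (Qs Mm n₀) '' (piece B X T J m k)).ncard, n₀, ?_⟩
    intro n hn
    refine ⟨cells_finite _ _ k hS, ?_⟩
    show (ci (Qs Mm n) '' (piece B X T J m k)).ncard ≤ _
    induction n, hn using Nat.le_induction with
    | base =>
      apply Nat.le_mul_of_pos_right
      exact Finset.prod_pos (fun l _ => ht l)
    | succ n hn ih =>
      refine (ncard_cells_succ hM n _ k hS).trans ?_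
      rw [Finset.prod_range_succ, ← mul_assoc]
      exact Nat.mul_le_mul ih (hn₀ n hn)

end

end Pool.Agent.X182.NA
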